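import Mathlib
import Pool.Agent.R195.Entire

/-! # Even quartic Liénard systems have a global analytic first integral

For `E = a x⁴ + b x² + c`, `a ≠ 0`, the substitution `u = x²` turns `x' = y - E(x), y' = -x` into the
Riccati equation `du/dy = 2 (a u² + b u + c - y)`, which is linearised by `u = - w' / (2 a w)`,
`w'' = 2 b w' + 4 a (y - c) w`. With two independent (entire) solutions `w₁, w₂` and
`fᵢ = 2 a x² wᵢ(y) + wᵢ'(y)` the function `f₁² / (f₁² + f₂²)` is a global analytic first integral. -/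

set_option autoImplicit false

namespace Pool.Agent.Results.MP_b09cb0_an.GlobalAnalyticIntegral

open Polynomial Pool.Agent.R195.Ent

/-- The system `x' = y - E(x)`, `y' = -x` has a global analytic first integral: a non-constant
real-analytic function `H` on `ℝ²` with `(y - E(x)) ∂H/∂x - x ∂H/∂y = 0` everywhere. -/
def HasGlobalAnalyticFirstIntegral (E : ℝ[X]) : Prop :=
  ∃ H : ℝ × ℝ → ℝ, AnalyticOnNhd ℝ H Set.univ ∧ (∃ p q, H p ≠ H q) ∧
    ∀ x y : ℝ, (y - E.eval x) * fderiv ℝ H (x, y) (1, 0) - x * fderiv ℝ H (x, y) (0, 1) = 0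

/-- the functions `fᵢ` -/
noncomputable def ff (a b c p q : ℝ) (z : ℝ × ℝ) : ℝ :=
  2 * a * z.1 ^ 2 * w a b c p q z.2 + w' a b c p q z.2

lemma ff_analytic (a b c p q : ℝ) : AnalyticOnNhd ℝ (ff a b c p q) Set.univ := by
  have h1 : AnalyticOnNhd ℝ (fun z : ℝ × ℝ => z.1) Set.univ := analyticOnNhd_fst
  have h2 : AnalyticOnNhd ℝ (fun z : ℝ × ℝ => w a b c p q z.2) Set.univ :=
    fun z _ => (w_analytic a b c p q z.2 (Set.mem_univ _)).fun_comp analyticAt_snd
  have h3 : AnalyticOnNhd ℝ (fun z : ℝ × ℝ => w' a b c p q z.2) Set.univ :=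
    fun z _ => (w'_analytic a b c p q z.2 (Set.mem_univ _)).fun_comp analyticAt_snd
  exact ((analyticOnNhd_const.mul (h1.pow 2)).mul h2).add h3

/-- the derivative of `fᵢ` along the field -/
lemma ff_along (a b c p q x y : ℝ) (E : ℝ) (hE : E = a * x ^ 4 + b * x ^ 2 + c) :
    HasDerivAt (fun t : ℝ => ff a b c p q (x + t * (y - E), y + t * (-x)))
      (-2 * x * (a * x ^ 2 + b) * ff a b c p q (x, y)) 0 := by
  have h1 : HasDerivAt (fun t : ℝ => x + t * (y - E)) (y - E) 0 := by
    simpa using ((hasDerivAt_id (0:ℝ)).mul_const (y - E)).const_add x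
  have h2 : HasDerivAt (fun t : ℝ => y + t * (-x)) (-x) 0 := by
    simpa using ((hasDerivAt_id (0:ℝ)).mul_const (-x)).const_add y
  have e0 : y + 0 * (-x) = y := by ring
  have e1 : x + 0 * (y - E) = x := by ring
  have h3 : HasDerivAt (fun t : ℝ => w a b c p q (y + t * (-x))) (w' a b c p q y * (-x)) 0 := by
    have := w_deriv a b c p q y
    rw [← e0] at this
    have h := this.comp (0:ℝ) h2
    rw [e0] at h
    exact h
  have h4 : HasDerivAt (fun t : ℝ => w' a b c p q (y + t * (-x)))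
      ((2 * b * w' a b c p q y + 4 * a * (y - c) * w a b c p q y) * (-x)) 0 := by
    have := w'_deriv a b c p q y
    rw [show 2 * b * w' a b c p q y + 4 * a * (y - c) * w a b c p q y =
      2 * b * w' a b c p q y + 4 * a * (y - c) * w a b c p q y from rfl] at this
    have h5 : HasDerivAt (w' a b c p q)
      (2 * b * w' a b c p q y + 4 * a * (y - c) * w a b c p q y) (y + 0 * (-x)) := by
      rw [e0]; exact this
    exact h5.comp (0:ℝ) h2
  have h5 := (((h1.pow 2).const_mul (2 * a)).mul h3).add h4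
  refine (h5.congr_deriv ?_)
  simp only [ff, e0, e1, Pi.pow_apply]
  rw [hE]
  push_cast
  ring

/-- the Wronskian does not vanish -/
lemma wronskian (a b c y : ℝ) :
    w a b c 1 0 y * w' a b c 0 1 y - w a b c 0 1 y * w' a b c 1 0 y ≠ 0 := by
  set W : ℝ → ℝ := fun y => w a b c 1 0 y * w' a b c 0 1 y - w a b c 0 1 y * w' a b c 1 0 y with hW
  have hd : ∀ y, HasDerivAt (fun y => W y * Real.exp (-2 * b * y)) 0 y := by
    intro y
    have h1 := (w_deriv a b c 1 0 y).mul (w'_deriv a b c 0 1 y)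
    have h2 := (w_deriv a b c 0 1 y).mul (w'_deriv a b c 1 0 y)
    have h3 : HasDerivAt (fun y : ℝ => Real.exp (-2 * b * y))
        (Real.exp (-2 * b * y) * (-2 * b)) y := by
      have := ((hasDerivAt_id y).const_mul (-2 * b)).exp
      simpa using this
    have h4 := (h1.sub h2).mul h3
    refine h4.congr_deriv ?_
    simp only [Pi.mul_apply, Pi.sub_apply]
    ring
  have hconst : ∀ y, W y * Real.exp (-2 * b * y) = W 0 * Real.exp (-2 * b * 0) := fun y =>
    is_const_of_deriv_eq_zero (fun y => (hd y).differentiableAt) (fun y => (hd y).deriv) y 0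
  have h0 : W 0 = 1 := by
    simp only [hW, w_zero, w'_zero]; ring
  intro h
  have := hconst y
  rw [h0] at this
  change W y = 0 at h
  rw [h] at this
  simp at this

lemma ff_pos (a b c : ℝ) (z : ℝ × ℝ) : 0 < ff a b c 1 0 z ^ 2 + ff a b c 0 1 z ^ 2 := by
  have h := wronskian a b c z.2
  by_contra hcon
  have h1 : ff a b c 1 0 z = 0 := by nlinarith [sq_nonneg (ff a b c 1 0 z), sq_nonneg (ff a b c 0 1 z)]
  have h2 : ff a b c 0 1 z = 0 := by nlinarith [sq_nonneg (ff a b c 1 0 z), sq_nonneg (ff a b c 0 1 z)]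
  apply h
  unfold ff at h1 h2
  linear_combination w a b c 1 0 z.2 * h2 - w a b c 0 1 z.2 * h1

theorem quartic (a b c : ℝ) (ha : a ≠ 0) :
    HasGlobalAnalyticFirstIntegral (C a * X ^ 4 + C b * X ^ 2 + C c) := by
  set f := ff a b c 1 0 with hf
  set g := ff a b c 0 1 with hg
  have hfa : AnalyticOnNhd ℝ f Set.univ := ff_analytic a b c 1 0
  have hga : AnalyticOnNhd ℝ g Set.univ := ff_analytic a b c 0 1
  have hH : AnalyticOnNhd ℝ (fun z => f z ^ 2 / (f z ^ 2 + g z ^ 2)) Set.univ :=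
    (hfa.pow 2).div ((hfa.pow 2).add (hga.pow 2)) (fun z _ => (ff_pos a b c z).ne')
  refine ⟨fun z => f z ^ 2 / (f z ^ 2 + g z ^ 2), hH, ⟨(0, 0), (1, 0), ?_⟩, ?_⟩
  · have v1 : f (0, 0) = 0 := by simp [hf, ff, w_zero, w'_zero]
    have v2 : f (1, 0) = 2 * a := by simp [hf, ff, w_zero, w'_zero]
    have v3 : g (1, 0) = 1 := by simp [hg, ff, w_zero, w'_zero]
    simp only [v1, v2, v3]
    intro h
    have h1 : (0:ℝ) < (2 * a) ^ 2 / ((2 * a) ^ 2 + 1 ^ 2) := by positivity
    rw [← h] at h1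
    simp at h1
  · intro x y
    have hE : (C a * X ^ 4 + C b * X ^ 2 + C c : ℝ[X]).eval x = a * x ^ 4 + b * x ^ 2 + c := by simp
    rw [hE]
    set E := a * x ^ 4 + b * x ^ 2 + c with hE'
    set H : ℝ × ℝ → ℝ := fun z => f z ^ 2 / (f z ^ 2 + g z ^ 2) with hHdef
    have hdiff : DifferentiableAt ℝ H (x, y) := (hH (x, y) (Set.mem_univ _)).differentiableAt
    have hlin : (y - E) * fderiv ℝ H (x, y) (1, 0) - x * fderiv ℝ H (x, y) (0, 1) =
        fderiv ℝ H (x, y) (y - E, -x) := by
      have : ((y - E, -x) : ℝ × ℝ) = (y - E) • ((1, 0) : ℝ × ℝ) + (-x) • ((0, 1) : ℝ × ℝ) := by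
        ext <;> simp
      rw [this, map_add, map_smul, map_smul, smul_eq_mul, smul_eq_mul]
      ring
    rw [hlin]
    -- the derivative along the line
    have hline : HasDerivAt (fun t : ℝ => ((x + t * (y - E), y + t * (-x)) : ℝ × ℝ))
        ((y - E, -x) : ℝ × ℝ) 0 := by
      apply HasDerivAt.prodMk
      · simpa using ((hasDerivAt_id (0:ℝ)).mul_const (y - E)).const_add x
      · simpa using ((hasDerivAt_id (0:ℝ)).mul_const (-x)).const_add y
    have e0 : ((x + 0 * (y - E), y + 0 * (-x)) : ℝ × ℝ) = (x, y) := by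
      ext <;> simp
    have hc1 : HasDerivAt (fun t : ℝ => H (x + t * (y - E), y + t * (-x)))
        (fderiv ℝ H (x, y) (y - E, -x)) 0 := by
      have h1 : HasFDerivAt H (fderiv ℝ H (x, y)) (x + 0 * (y - E), y + 0 * (-x)) := by
        rw [e0]; exact hdiff.hasFDerivAt
      exact h1.comp_hasDerivAt (0:ℝ) hline
    have d1 := ff_along a b c 1 0 x y E hE'
    have d2 := ff_along a b c 0 1 x y E hE'
    have d3 := (d1.pow 2).div ((d1.pow 2).add (d2.pow 2)) (by
      simp only [Pi.add_apply, Pi.pow_apply]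
      rw [e0]
      exact (ff_pos a b c (x, y)).ne')
    have hc2 : HasDerivAt (fun t : ℝ => H (x + t * (y - E), y + t * (-x))) 0 0 := by
      refine d3.congr_deriv ?_
      simp only [Pi.add_apply, Pi.pow_apply]
      rw [e0]
      rw [div_eq_zero_iff]
      left
      push_cast
      ring
    exact hc1.unique hc2

/-- **The answer to Q1 is no.** Every even quartic `E = a x⁴ + b x² + c`, `a ≠ 0`, gives a system with
a global analytic first integral; hence it is not true that no system of the family has one. -/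
theorem result : (∀ a b c : ℝ, a ≠ 0 →
      HasGlobalAnalyticFirstIntegral (C a * X ^ 4 + C b * X ^ 2 + C c)) ∧
    ¬ (∀ E : ℝ[X], (∀ x, E.eval (-x) = E.eval x) → 4 ≤ E.natDegree →
      ¬ HasGlobalAnalyticFirstIntegral E) := by
  refine ⟨quartic, fun h => ?_⟩
  refine h (C 1 * X ^ 4 + C 0 * X ^ 2 + C 0) ?_ ?_ (quartic 1 0 0 one_ne_zero)
  · intro x
    simp
    ring
  · simp

end Pool.Agent.Results.MP_b09cb0_an.GlobalAnalyticIntegral
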